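import Mathlib
import Pool.Agent.U110.BN.PM

/-!
# The free Burnside groups `B(m, n)` for `m ≥ 3`

For the pairs `(m, n)` with `m ≥ 3` it is shown that the finiteness of `B(m, n)` does not depend on
`m`, provided that for the prime powers `q > 5` dividing `n` the groups `B(m, q)` are finite for
all `m`; the only condition on the finite nonabelian simple sections of `B(3, n)` are two properties
which all finite nonabelian simple groups have (see `Good`).  The proof uses the theorem on exponents
`Pool.Agent.U110.BN.main_exp`, whose proof is outlined in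
`Pool/Agent/Results/MP_544bd1_al/ThreeGeneratorsGeneral.lean`.
-/

set_option autoImplicit false

namespace Pool.Agent.Results.MP_073a0c_al.RankThree

open Pool.Agent.U110.BN (SecU main_exp good_a5)

/-- The free Burnside group `B(m, n)`: the free group of rank `m` modulo the normal closure of all
`n`-th powers. -/
abbrev B (m n : ℕ) : Type :=
  FreeGroup (Fin m) ⧸ Subgroup.normalClosure (Set.range fun w : FreeGroup (Fin m) => w ^ n)

/-- `V` is a finite nonabelian simple section of `F`: a quotient of a subgroup of `F` which is a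
finite nonabelian simple group. -/
structure SimpleSection (V : Type) [Group V] (F : Type) [Group F] : Prop where
  finite : Finite V
  simple : IsSimpleGroup V
  nonabelian : ∃ a b : V, a * b ≠ b * a
  quotient : ∃ (H : Subgroup F) (f : H →* V), Function.Surjective f

/-- `V` has two different commuting involutions, and for each automorphism `α` of `V` different from
the identity there is an element of `V` which lies in no proper `α`-invariant subgroup of `V`. -/
structure Good (V : Type) [Group V] : Prop where
  involutions : ∃ i j : V, i * i = 1 ∧ i ≠ 1 ∧ j * j = 1 ∧ j ≠ 1 ∧ i * j = j * i ∧ i ≠ j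
  automorphisms : ∀ α : V ≃* V, (∃ t, α t ≠ t) →
    ∃ y : V, ∀ P : Subgroup V, y ∈ P → (∀ x ∈ P, α x ∈ P) → P = ⊤

/-- a homomorphism of `B(m, n)` onto the subgroup generated by `m` elements -/
theorem exists_hom {m n : ℕ} {G : Type} [Group G] (hGn : ∀ x : G, x ^ n = 1) (s : Fin m → G) :
    ∃ f : B m n →* G, f.range = Subgroup.closure (Set.range s) := by
  let g : FreeGroup (Fin m) →* G := FreeGroup.lift s
  have hg : Subgroup.normalClosure (Set.range fun w : FreeGroup (Fin m) => w ^ n) ≤ g.ker := by
    apply Subgroup.normalClosure_le_normal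
    rintro _ ⟨w, rfl⟩
    change g (w ^ n) = 1
    rw [map_pow, hGn]
  refine ⟨QuotientGroup.lift _ g hg, ?_⟩
  have h1 : (QuotientGroup.lift _ g hg).range = g.range := by
    ext y
    constructor
    · rintro ⟨q, rfl⟩
      obtain ⟨u, rfl⟩ := QuotientGroup.mk_surjective q
      exact ⟨u, rfl⟩
    · rintro ⟨u, rfl⟩
      exact ⟨QuotientGroup.mk u, rfl⟩
  rw [h1, FreeGroup.range_lift_eq_closure]

/-- if all `B(m, n)` are finite, then all groups of exponent `n` are locally finite -/
theorem lf_of_finite {n : ℕ} (h : ∀ m : ℕ, Finite (B m n)) (G : Type) [Group G]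
    (hG : ∀ x : G, x ^ n = 1) (S : Set G) (hS : S.Finite) : Finite (Subgroup.closure S) := by
  obtain ⟨m, s, -, hs⟩ := hS.fin_param
  obtain ⟨f, hf⟩ := exists_hom hG s
  rw [← hs, ← hf]
  have := h m
  exact Finite.of_surjective f.rangeRestrict f.rangeRestrict_surjective

/-- the group `B(m, n)` is generated by the images of the generators -/
theorem b_gen (m n : ℕ) : Subgroup.closure
    (Set.range fun i : Fin m => (QuotientGroup.mk (FreeGroup.of i) : B m n)) = ⊤ := by
  rw [show (Set.range fun i : Fin m => (QuotientGroup.mk (FreeGroup.of i) : B m n)) =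
      (QuotientGroup.mk' _) '' (Set.range (FreeGroup.of : Fin m → FreeGroup (Fin m))) from by
    rw [← Set.range_comp]; rfl, ← MonoidHom.map_closure, FreeGroup.closure_range_of,
    ← MonoidHom.range_eq_map, MonoidHom.range_eq_top]
  exact QuotientGroup.mk'_surjective _

theorem b_exp (m n : ℕ) (x : B m n) : x ^ n = 1 := by
  obtain ⟨w, rfl⟩ := QuotientGroup.mk_surjective x
  rw [← QuotientGroup.mk_pow, QuotientGroup.eq_one_iff]
  exact Subgroup.subset_normalClosure ⟨w, rfl⟩

/-- `B(k, n)` is a quotient of `B(m, n)` for `k ≤ m` -/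
theorem b_mono {k m n : ℕ} (hkm : k ≤ m) (h : Finite (B m n)) : Finite (B k n) := by
  let s : Fin m → B k n := fun i =>
    if hi : (i : ℕ) < k then QuotientGroup.mk (FreeGroup.of ⟨i, hi⟩) else 1
  obtain ⟨f, hf⟩ := exists_hom (b_exp k n) s
  have htop : f.range = ⊤ := by
    rw [hf, eq_top_iff, ← b_gen k n, Subgroup.closure_le]
    rintro _ ⟨i, rfl⟩
    refine Subgroup.subset_closure ⟨⟨i, lt_of_lt_of_le i.2 hkm⟩, ?_⟩
    simp [s]
  exact Finite.of_surjective f (MonoidHom.range_eq_top.1 htop)

/-- (1) Let `n ≥ 1` be such that each finite nonabelian simple section of `B(3, n)` is good. Then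
`B(m, n)` is finite for all `m` if and only if `B(3, n)` is finite and `B(m, q)` is finite for all
`m` and all prime powers `q = p ^ k > 5` dividing `n`. (2) For such `n`, if moreover `B(m, q)` is
finite for all `m` and all prime powers `q > 5` dividing `n` (for example, if there are no such
prime powers), and `m ≥ 3`, then `B(m, n)` is finite if and only if `B(3, n)` is finite. (3) The
alternating group of degree `5` is good. -/
theorem result :
    (∀ n : ℕ, 1 ≤ n → (∀ (V : Type) [Group V], SimpleSection V (B 3 n) → Good V) →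
      (((∀ m : ℕ, Finite (B m n)) ↔ Finite (B 3 n) ∧
        ∀ p k : ℕ, p.Prime → p ^ k ∣ n → 5 < p ^ k → ∀ m : ℕ, Finite (B m (p ^ k))) ∧
      ((∀ p k : ℕ, p.Prime → p ^ k ∣ n → 5 < p ^ k → ∀ m : ℕ, Finite (B m (p ^ k))) →
        ∀ m : ℕ, 3 ≤ m → (Finite (B m n) ↔ Finite (B 3 n))))) ∧
    Good (alternatingGroup (Fin 5)) := by
  have key : ∀ n : ℕ, 1 ≤ n → (∀ (V : Type) [Group V], SimpleSection V (B 3 n) → Good V) →
      Finite (B 3 n) →
      (∀ p k : ℕ, p.Prime → p ^ k ∣ n → 5 < p ^ k → ∀ m : ℕ, Finite (B m (p ^ k))) →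
      ∀ m : ℕ, Finite (B m n) := by
    intro n hn hV hB hq m
    have hL : MP_544bd1_al.TwoGenerators.InL.{0} n := by
      refine main_exp hn ?_ hB ?_
      · intro V _ h1 h2 h4 h5
        have := hV V ⟨h1, h2, h4, h5⟩
        exact ⟨this.1, this.2⟩
      · intro p k hp hk h5 G _ hG
        exact lf_of_finite (hq p k hp hk h5) G hG
    exact MP_544bd1_al.TwoGenerators.b_finite_of_inL hL m
  refine ⟨fun n hn hV => ⟨⟨fun h => ⟨h 3, ?_⟩, fun h => key n hn hV h.1 h.2⟩,
    fun hq m hm => ⟨b_mono hm, fun h => key n hn hV h hq m⟩⟩, good_a5.1, good_a5.2⟩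
  rintro p k _ ⟨d, hd⟩ _ m
  obtain ⟨f, hf⟩ := exists_hom (n := n) (G := B m (p ^ k))
    (fun x => by rw [hd, pow_mul, b_exp, one_pow])
    (fun i : Fin m => (QuotientGroup.mk (FreeGroup.of i) : B m (p ^ k)))
  rw [b_gen] at hf
  have := h m
  exact Finite.of_surjective f (MonoidHom.range_eq_top.1 hf)

end Pool.Agent.Results.MP_073a0c_al.RankThree
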